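import Pool.Agent.H34.GA.Targets1
import Pool.Agent.H19.GZ.CKZ

/-!
# Row CKI of the board ga: the operator as an integral operator, and its majorant (helper79)
-/

set_option autoImplicit false

namespace Pool.Agent.H79.GA

open MeasureTheory Pool.Agent.H34.GM Pool.Agent.H34.GZ Pool.Agent.H34.GU Pool.Agent.H34.GA
  Pool.Agent.H19.GZ

lemma bi_norm_le {m : ℕ} {χ : ℝ → ℝ} (hχ : Prof χ) (δ : ℝ) (v : Mat m) :
    ‖bi m χ δ v‖ ≤ 1 := by
  unfold bi
  rw [Complex.norm_real, Real.norm_eq_abs, abs_of_nonneg (hχ.lo _)]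
  exact hχ.hi _

lemma bi_supp {m : ℕ} {χ : ℝ → ℝ} (hχ : Prof χ) {δ : ℝ} (hδ : 0 < δ) (hδ2 : δ ≤ 1 / 2)
    (v : Mat m) (hv : bi m χ δ v ≠ 0) : sz v ≤ 2 := by
  unfold bi at hv
  obtain ⟨S, hS⟩ : ∃ S, S = ∑ i, ∑ j, ((v - 1) i j) ^ 2 := ⟨_, rfl⟩
  rw [← hS] at hv
  have hS0 : 0 ≤ S := by
    rw [hS]
    exact Finset.sum_nonneg fun i _ => Finset.sum_nonneg fun j _ => sq_nonneg _
  have h1 : |S / δ ^ 2| < 1 := by
    by_contra h
    push Not at h
    apply hv
    rw [hχ.supp _ h, Complex.ofReal_zero]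
  rw [abs_of_nonneg (by positivity), div_lt_one (by positivity)] at h1
  have h2 : S ≤ (1 / 2) ^ 2 := by nlinarith
  apply sz_le v (by norm_num)
  intro i j
  have h3 : ((v - 1) i j) ^ 2 ≤ S := by
    rw [hS]
    calc ((v - 1) i j) ^ 2 ≤ ∑ l, ((v - 1) i l) ^ 2 :=
          Finset.single_le_sum (f := fun l => ((v - 1) i l) ^ 2)
            (fun _ _ => sq_nonneg _) (Finset.mem_univ j)
      _ ≤ _ := Finset.single_le_sum (f := fun i => ∑ l, ((v - 1) i l) ^ 2)
            (fun _ _ => Finset.sum_nonneg fun _ _ => sq_nonneg _) (Finset.mem_univ i)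
  have h4 := abs_le_of_sq_le_sq (h3.trans h2) (by norm_num)
  rw [Matrix.sub_apply] at h4
  have h5 : |(1 : Mat m) i j| ≤ 1 := by
    rcases eq_or_ne i j with rfl | hij
    · rw [Matrix.one_apply_eq, abs_one]
    · rw [Matrix.one_apply_ne hij, abs_zero]
      norm_num
  calc |v i j| = |(v i j - (1 : Mat m) i j) + (1 : Mat m) i j| := by rw [sub_add_cancel]
    _ ≤ |v i j - (1 : Mat m) i j| + |(1 : Mat m) i j| := abs_add_le _ _
    _ ≤ 2 := by linarith

/-- finiteness of the support -/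
lemma sz_finite {m : ℕ} (hm : 1 ≤ m) (y : ℝ) (g h : Mat m) (hg : g.det ≠ 0) (hh : h.det ≠ 0) :
    {α : ZM m | y / 2 < (α.det.natAbs : ℝ) ∧ (α.det.natAbs : ℝ) ≤ y ∧
      sz (kk (aN (cR α)) h (cR α) g) ≤ 2}.Finite := by
  by_cases hy : 0 < y
  swap
  · have h0 : {α : ZM m | y / 2 < (α.det.natAbs : ℝ) ∧ (α.det.natAbs : ℝ) ≤ y ∧
      sz (kk (aN (cR α)) h (cR α) g) ≤ 2} = ∅ := by
      ext α
      simp only [Set.mem_empty_iff_false, iff_false]
      rintro ⟨h1, h2, -⟩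
      push Not at hy
      have h3 : (0 : ℝ) ≤ (α.det.natAbs : ℝ) := Nat.cast_nonneg _
      linarith
    rw [h0]
    exact Set.finite_empty
  have hah := aN_pos h hh
  have hag := aN_pos g hg
  obtain ⟨B, hB⟩ : ∃ B, B = (1 + y) * aN g / aN h * (m * (m * (sz h * 2) * sz g⁻¹)) := ⟨_, rfl⟩
  apply Set.Finite.subset (Set.finite_Icc (fun _ _ => -(⌈B⌉ : ℤ) : Fin m → Fin m → ℤ)
    (fun _ _ => (⌈B⌉ : ℤ)))
  intro (α : ZM m) hα
  obtain ⟨h1, h2, h3⟩ := hα
  have hv := h3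
  obtain ⟨G, hG⟩ : ∃ G, G = cR α := ⟨_, rfl⟩
  rw [← hG] at hv
  have hGd : |G.det| = (α.det.natAbs : ℝ) := by
    have h4 : G.det = ((α.det : ℤ) : ℝ) := by
      rw [hG]
      unfold cR
      exact (RingHom.map_det (Int.castRingHom ℝ) α).symm
    rw [h4, Nat.cast_natAbs, Int.cast_abs]
  have hGd0 : G.det ≠ 0 := by
    intro h0
    rw [h0, abs_zero] at hGd
    linarith
  have haG := aN_pos G hGd0
  have haG1 : aN G ≤ 1 + y := by
    by_cases h5 : aN G ≤ 1
    · linarith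
    · push Not at h5
      have h6 : aN G ^ 1 ≤ aN G ^ m := pow_le_pow_right₀ h5.le hm
      rw [pow_one, aN_pow hm, hGd] at h6
      linarith
  obtain ⟨v, hvd⟩ : ∃ v, v = kk (aN G) h G g := ⟨_, rfl⟩
  rw [← hvd] at hv
  obtain ⟨c, hc⟩ : ∃ c, c = (aN G)⁻¹ * aN h / aN g := ⟨_, rfl⟩
  have hc0 : 0 < c := by rw [hc]; positivity
  have hve : v = c • (h⁻¹ * G * g) := by rw [hvd, kk_apply, hc]
  have hhi : h * h⁻¹ = 1 := Matrix.mul_nonsing_inv h (isUnit_iff_ne_zero.mpr hh)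
  have hgi : g * g⁻¹ = 1 := Matrix.mul_nonsing_inv g (isUnit_iff_ne_zero.mpr hg)
  have e1 : h * v * g⁻¹ = c • G := by
    rw [hve, Matrix.mul_smul, Matrix.smul_mul, Matrix.mul_assoc h⁻¹ G g, ← Matrix.mul_assoc h,
      hhi, Matrix.one_mul, Matrix.mul_assoc, hgi, Matrix.mul_one]
  have e2 : G = c⁻¹ • (h * v * g⁻¹) := by
    rw [e1, smul_smul, inv_mul_cancel₀ hc0.ne', one_smul]
  have hbd : ∀ i j, |G i j| ≤ B := by
    intro i j
    rw [e2, Matrix.smul_apply, smul_eq_mul, abs_mul, abs_of_pos (inv_pos.mpr hc0), hB]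
    have h7 : ∀ i j, |(h * v) i j| ≤ m * (sz h * 2) :=
      mul_bd h v (sz_nonneg h) (abs_le_sz h) fun i j => (abs_le_sz v i j).trans hv
    have h8 := mul_bd (h * v) g⁻¹ (mul_nonneg (Nat.cast_nonneg m)
      (mul_nonneg (sz_nonneg h) (by norm_num))) h7 (abs_le_sz g⁻¹) i j
    have h9 : c⁻¹ ≤ (1 + y) * aN g / aN h := by
      rw [hc]
      have : ((aN G)⁻¹ * aN h / aN g)⁻¹ = aN G * aN g / aN h := by
        field_simp
      rw [this]
      apply div_le_div_of_nonneg_right _ hah.le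
      exact mul_le_mul_of_nonneg_right haG1 hag.le
    exact mul_le_mul h9 h8 (abs_nonneg _) (by positivity)
  have hint : ∀ i j, |α i j| ≤ ⌈B⌉ := by
    intro i j
    have h10 : ((|α i j| : ℤ) : ℝ) ≤ B := by
      have := hbd i j
      rw [hG] at this
      unfold cR at this
      rw [Matrix.map_apply] at this
      rw [Int.cast_abs]
      exact this
    have h11 : ((|α i j| : ℤ) : ℝ) ≤ (⌈B⌉ : ℤ) := h10.trans (Int.le_ceil B)
    exact_mod_cast h11
  constructor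
  · intro i j
    exact (abs_le.mp (hint i j)).1
  · intro i j
    exact (abs_le.mp (hint i j)).2

open Classical in
/-- the terms of the kernel `Cu` -/
private lemma Cu_terms (m q : ℕ) (Φ : Mat m → ℂ) (y : ℝ) (g h : Mat m) (x : VN m q) :
    ∃ f : VN m q → ZM m → ℂ, (∀ w, Cu Φ y g x h w = ∑' α : ZM m, f w α) ∧
    (∀ (w : VN m q) (α : ZM m), (ac q α x = w ∧ Pr w ∧ y / 2 < (α.det.natAbs : ℝ) ∧
      (α.det.natAbs : ℝ) ≤ y) → f w α = Φ (kk (aN (cR α)) h (cR α) g)) ∧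
    (∀ (w : VN m q) (α : ZM m), ¬ (ac q α x = w ∧ Pr w ∧ y / 2 < (α.det.natAbs : ℝ) ∧
      (α.det.natAbs : ℝ) ≤ y) → f w α = 0) :=
  ⟨fun w α => if ac q α x = w ∧ Pr w ∧ y / 2 < (α.det.natAbs : ℝ) ∧
    (α.det.natAbs : ℝ) ≤ y then Φ (kk (aN (cR α)) h (cR α) g) else 0, fun _ => rfl,
    fun _ _ h => if_pos h, fun _ _ h => if_neg h⟩

open Classical in
theorem pf_CKI : T_CKI := by
  intro m q _ χ δ hm hq hχ hδ hδ2 y
  refine ⟨?_, ?_⟩
  · intro g h x w
    unfold Cu Pu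
    rw [ofReal_norm]
    refine enorm_tsum_le_tsum_enorm.trans (ENNReal.tsum_le_tsum fun α => ?_)
    by_cases h1 : ac q α x = w ∧ Pr w ∧ y / 2 < (α.det.natAbs : ℝ) ∧
        (α.det.natAbs : ℝ) ≤ y
    · rw [if_pos h1]
      by_cases h2 : bi m χ δ (kk (aN (cR α)) h (cR α) g) = 0
      · rw [h2]
        simp
      · have h3 := bi_supp hχ hδ hδ2 _ h2
        rw [if_pos ⟨h1.1, h1.2.1, h1.2.2.1, h1.2.2.2, h3⟩, ← ofReal_norm, ← ENNReal.ofReal_one]
        exact ENNReal.ofReal_le_ofReal (bi_norm_le hχ δ _)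
    · rw [if_neg h1]
      simp
  · intro F hF g h x hg hh
    have hfin := sz_finite hm y g h hg hh
    obtain ⟨f, hf, hf1, hf0⟩ := Cu_terms m q (bi m χ δ) y g h x
    have hsum : ∀ w : VN m q, Summable (fun α : ZM m => f w α * F w) := by
      intro w
      apply summable_of_hasFiniteSupport
      apply Set.Finite.subset hfin
      intro α hα
      rw [Function.mem_support] at hα
      by_cases h1 : ac q α x = w ∧ Pr w ∧ y / 2 < (α.det.natAbs : ℝ) ∧
        (α.det.natAbs : ℝ) ≤ y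
      · rw [hf1 w α h1] at hα
        exact ⟨h1.2.2.1, h1.2.2.2, bi_supp hχ hδ hδ2 _ (left_ne_zero_of_mul hα)⟩
      · rw [hf0 w α h1, zero_mul] at hα
        exact absurd rfl hα
    have h1 : ∑ w : VN m q, Cu (bi m χ δ) y g x h w * F w =
        ∑ w : VN m q, ∑' α : ZM m, f w α * F w := by
      apply Finset.sum_congr rfl
      intro w _
      rw [hf, tsum_mul_right]
    rw [h1, ← Summable.tsum_finsetSum fun w _ => hsum w]
    apply tsum_congr
    intro α
    by_cases h2 : y / 2 < (α.det.natAbs : ℝ) ∧ (α.det.natAbs : ℝ) ≤ y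
    · rw [if_pos h2, Finset.sum_eq_single (ac q α x)]
      · by_cases h3 : Pr (ac q α x)
        · rw [hf1 _ α ⟨rfl, h3, h2⟩]
        · rw [hF _ h3, mul_zero, mul_zero]
      · intro w _ hw
        rw [hf0 w α fun h => hw h.1.symm, zero_mul]
      · intro h
        exact absurd (Finset.mem_univ _) h
    · rw [if_neg h2]
      symm
      apply Finset.sum_eq_zero
      intro w _
      rw [hf0 w α fun h => h2 h.2.2, zero_mul]

end Pool.Agent.H79.GA
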